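import Mathlib
import Pool.Agent.V11115.Rooted

/-!
For every tree the independent domination number is at most the weak domination number.
-/

namespace Pool.Agent.Results.MP_2d208d_co.TreesIndLeWeak

open SimpleGraph V11115

/-- `D` is a dominating set. -/
def IsDominating {V : Type} (G : SimpleGraph V) (D : Finset V) : Prop :=
  ∀ v, v ∉ D → ∃ u ∈ D, G.Adj u v

/-- `D` is an independent set. -/
def IsIndependent {V : Type} (G : SimpleGraph V) (D : Finset V) : Prop :=
  ∀ u ∈ D, ∀ v ∈ D, ¬ G.Adj u v

/-- `D` is a weak dominating set. -/
def IsWeakDominating {V : Type} (G : SimpleGraph V) [G.LocallyFinite] (D : Finset V) : Prop :=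
  ∀ v, v ∉ D → ∃ u ∈ D, G.Adj u v ∧ G.degree u ≤ G.degree v

/-- The independent domination number. -/
noncomputable def indDomNumber {V : Type} (G : SimpleGraph V) : ℕ :=
  sInf {k | ∃ D : Finset V, IsDominating G D ∧ IsIndependent G D ∧ D.card = k}

/-- The weak domination number. -/
noncomputable def weakDomNumber {V : Type} (G : SimpleGraph V) [G.LocallyFinite] : ℕ :=
  sInf {k | ∃ D : Finset V, IsWeakDominating G D ∧ D.card = k}

/-- The bound `a(D-state, I-state)` used in the proof. `x` : `v ∈ D`; `y` : some child of `v` is
in `D`; `lf` : `v` is a leaf; `sp` : `v` has a leaf child; the state `s` is `0` (`v ∈ I`), `1`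
(dominated from below) or `2` (dominated by the parent). -/
noncomputable def pot (lf sp x y : Prop) (s : ℕ) : ℤ := by
  classical
  exact
    if lf then (if s = 2 then -1 else 0)
    else if sp then (if x then -1 else 0)
    else if x then (if s = 2 then -1 else 0)
    else if y then 0
    else (if s = 0 then 1 else 0)

theorem pot1_le (lf sp x y : Prop) : pot lf sp x y 1 ≤ 0 := by
  unfold pot
  by_cases h1 : lf <;> by_cases h2 : sp <;> by_cases h3 : x <;> by_cases h4 : y <;>
    simp [h1, h2, h3, h4]

theorem pot2_le (lf sp x y : Prop) : pot lf sp x y 2 ≤ 0 := by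
  unfold pot
  by_cases h1 : lf <;> by_cases h2 : sp <;> by_cases h3 : x <;> by_cases h4 : y <;>
    simp [h1, h2, h3, h4]

theorem pot0_le_one (lf sp x y : Prop) : pot lf sp x y 0 ≤ 1 := by
  unfold pot
  by_cases h1 : lf <;> by_cases h2 : sp <;> by_cases h3 : x <;> by_cases h4 : y <;>
    simp [h1, h2, h3, h4]

theorem pot0_le (lf sp x y : Prop) (h : lf ∨ sp ∨ x ∨ y) : pot lf sp x y 0 ≤ 0 := by
  unfold pot
  by_cases h1 : lf <;> by_cases h2 : sp <;> by_cases h3 : x <;> by_cases h4 : y <;>
    simp_all

theorem main {V : Type} [Fintype V] {G : SimpleGraph V} (R : Rooting G)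
    (D : Finset V) (hdom : IsDominating G D)
    (hroot : (R.children R.root).Nonempty)
    (hleaf : ∀ v, R.children v = ∅ → v ∈ D) :
    ∃ I : Finset V, IsDominating G I ∧ IsIndependent G I ∧ I.card ≤ D.card := by
  classical
  -- predicates
  let lf : V → Prop := fun v => R.children v = ∅
  let sp : V → Prop := fun v => ∃ c ∈ R.children v, lf c
  let y : V → Prop := fun v => ∃ c ∈ R.children v, c ∈ D
  -- the chosen child
  have hpick : ∀ v, ∃ c, (¬ lf v → c ∈ R.children v) ∧ (y v → c ∈ D) := by
    intro v
    by_cases h : y v
    · obtain ⟨c, hc, hcD⟩ := h
      exact ⟨c, fun _ => hc, fun _ => hcD⟩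
    · by_cases h2 : lf v
      · exact ⟨v, fun h' => absurd h2 h', fun h' => absurd h' h⟩
      · obtain ⟨c, hc⟩ := Finset.nonempty_iff_ne_empty.mpr h2
        exact ⟨c, fun _ => hc, fun h' => absurd h' h⟩
  choose pick hpick1 hpick2 using hpick
  let F : ℕ → V → ℕ := fun s c =>
    if s = 0 then (if sp c then 1 else 2)
    else if s = 1 then (if lf c ∨ (¬ sp (R.par c) ∧ c = pick (R.par c)) then 0 else 1)
    else 1
  let st : V → ℕ := R.lab 1 F
  have st_root : st R.root = 1 := R.lab_root 1 F
  have st_ne : ∀ v, v ≠ R.root → st v = F (st (R.par v)) v := fun v hv => R.lab_of_ne 1 F hv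
  have st_ch : ∀ v c, c ∈ R.children v → st c =
      if st v = 0 then (if sp c then 1 else 2)
      else if st v = 1 then (if lf c ∨ (¬ sp v ∧ c = pick v) then 0 else 1)
      else 1 := by
    intro v c hc
    rw [R.mem_children] at hc
    obtain ⟨hc1, hc2⟩ := hc
    subst hc2
    exact st_ne c hc1
  have st_le : ∀ v, st v = 0 ∨ st v = 1 ∨ st v = 2 := by
    intro v
    by_cases hv : v = R.root
    · subst hv; exact Or.inr (Or.inl st_root)
    · rw [st_ne v hv]
      simp only [F]
      split_ifs <;> simp
  -- a vertex with state 2 has no leaf child; its parent is in I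
  have st2 : ∀ v, st v = 2 → v ≠ R.root ∧ st (R.par v) = 0 ∧ ¬ sp v := by
    intro v hv
    have hvr : v ≠ R.root := by
      rintro rfl; rw [st_root] at hv; omega
    refine ⟨hvr, ?_⟩
    have := st_ne v hvr
    simp only [F] at this
    rw [hv] at this
    split_ifs at this with h1 h2 h3 h4 <;> simp_all
  -- a vertex of state 1 is not a leaf
  have st1 : ∀ v, st v = 1 → ¬ lf v := by
    intro v hv hl
    by_cases hvr : v = R.root
    · subst hvr
      exact (Finset.nonempty_iff_ne_empty.mp hroot) hl
    · have h0 := st_ne v hvr
      simp only [F] at h0
      rw [hv] at h0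
      have hnsp : ¬ sp v := by
        rintro ⟨c, hc, _⟩
        have : R.children v = ∅ := hl
        rw [this] at hc; simp at hc
      have hv2 : st (R.par v) ≠ 2 := by
        intro h2
        have := (st2 _ h2).2.2
        exact this ⟨v, (R.mem_children).mpr ⟨hvr, rfl⟩, hl⟩
      rcases st_le (R.par v) with h | h | h
      · rw [h] at h0; simp [hnsp] at h0
      · rw [h] at h0; simp [hl] at h0
      · exact hv2 h
  refine ⟨Finset.univ.filter (fun v => st v = 0), ?_, ?_, ?_⟩
  · -- dominating
    intro v hv
    have hv0 : st v ≠ 0 := by simpa using hv
    rcases st_le v with h | h | h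
    · exact absurd h hv0
    · have hnl := st1 v h
      by_cases hs : sp v
      · obtain ⟨c, hc, hlc⟩ := hs
        refine ⟨c, ?_, ?_⟩
        · simp only [Finset.mem_filter, Finset.mem_univ, true_and]
          rw [st_ch v c hc, h]; simp [hlc]
        · rw [R.adj_iff]; left; exact (R.mem_children).mp hc
      · have hc := hpick1 v hnl
        refine ⟨pick v, ?_, ?_⟩
        · simp only [Finset.mem_filter, Finset.mem_univ, true_and]
          rw [st_ch v _ hc, h]; simp [hs]
        · rw [R.adj_iff]; left; exact (R.mem_children).mp hc
    · obtain ⟨h1, h2, _⟩ := st2 v h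
      refine ⟨R.par v, by simpa using h2, ?_⟩
      rw [R.adj_iff]; right; exact ⟨h1, rfl⟩
  · -- independent
    have key : ∀ u v, st u = 0 → st v = 0 → u ≠ R.root → R.par u = v → False := by
      intro u v hu hv hur huv
      have h0 := st_ch v u ((R.mem_children).mpr ⟨hur, huv⟩)
      rw [hu, hv] at h0
      by_cases h : sp u <;> simp [h] at h0
    intro u hu v hv hadj
    have hu0 : st u = 0 := by simpa using hu
    have hv0 : st v = 0 := by simpa using hv
    rcases (R.adj_iff u v).mp hadj with ⟨a, b⟩ | ⟨a, b⟩
    · exact key u v hu0 hv0 a b
    · exact key v u hv0 hu0 a b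
  · -- counting
    let a : V → ℤ := fun v => pot (lf v) (sp v) (v ∈ D) (y v) (st v)
    let b : V → ℤ := fun v => (if st v = 0 then 1 else 0) - (if v ∈ D then 1 else 0)
    have htel : ∑ v, b v ≤ a R.root := by
      apply R.telescope a b
      intro v
      -- sums over the children
      have sum1 : ∀ (c0 : V) (k : ℤ), c0 ∈ R.children v → a c0 ≤ k →
          (∀ c ∈ R.children v, c ≠ c0 → a c ≤ 0) → ∑ c ∈ R.children v, a c ≤ k := by
        intro c0 k h0 h1 h2
        rw [← Finset.add_sum_erase _ _ h0]
        have : ∑ c ∈ (R.children v).erase c0, a c ≤ 0 := by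
          apply Finset.sum_nonpos
          intro c hc
          rw [Finset.mem_erase] at hc
          exact h2 c hc.2 hc.1
        linarith
      have sum0 : (∀ c ∈ R.children v, a c ≤ 0) → ∑ c ∈ R.children v, a c ≤ 0 :=
        fun h => Finset.sum_nonpos h
      by_cases hl : lf v
      · have he : R.children v = ∅ := hl
        have hD : v ∈ D := hleaf v he
        simp only [b, a, pot, hl, he, hD, Finset.sum_empty, if_true]
        rcases st_le v with h | h | h <;> simp [h]
      · by_cases hs : sp v
        · obtain ⟨c0, hc0, hlc0⟩ := id hs
          rcases st_le v with h | h | h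
          · have hall : ∀ c ∈ R.children v, a c ≤ 0 := by
              intro c hc
              have := st_ch v c hc
              rw [h] at this
              by_cases h3 : sp c
              · simp [h3] at this
                simp only [a, this]; exact pot1_le _ _ _ _
              · simp [h3] at this
                simp only [a, this]; exact pot2_le _ _ _ _
            have hc0s : st c0 = 2 := by
              have := st_ch v c0 hc0
              have hns : ¬ sp c0 := by
                rintro ⟨c, hc, _⟩
                have h' : R.children c0 = ∅ := hlc0
                rw [h'] at hc; simp at hc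
              rw [h] at this
              simpa [hns] using this
            have h4 : a c0 ≤ -1 := by
              simp only [a, pot, hlc0, hc0s, if_true]; rfl
            have := sum1 c0 (-1) hc0 h4 (fun c hc _ => hall c hc)
            have hav : a v = if v ∈ D then -1 else 0 := by
              simp only [a, pot, hl, hs, if_false, if_true]
              by_cases hD : v ∈ D <;> simp [hD]
            have hbv : b v = 1 - (if v ∈ D then 1 else 0) := by simp only [b, h, if_true]
            rw [hav, hbv]
            split_ifs <;> linarith
          · have hall : ∀ c ∈ R.children v, a c ≤ 0 := by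
              intro c hc
              have := st_ch v c hc
              rw [h] at this
              by_cases h3 : lf c
              · simp [h3, hs] at this
                simp only [a, this]; exact pot0_le _ _ _ _ (Or.inl h3)
              · simp [h3, hs] at this
                simp only [a, this]; exact pot1_le _ _ _ _
            have := sum0 hall
            have hav : a v = if v ∈ D then -1 else 0 := by
              simp only [a, pot, hl, hs, if_false, if_true]
              by_cases hD : v ∈ D <;> simp [hD]
            have hbv : b v = 0 - (if v ∈ D then 1 else 0) := by simp [b, h]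
            rw [hav, hbv]
            split_ifs <;> linarith
          · exact absurd hs (st2 v h).2.2
        · have hnl : ∀ c ∈ R.children v, ¬ lf c := fun c hc hlc => hs ⟨c, hc, hlc⟩
          rcases st_le v with h | h | h
          · have hall : ∀ c ∈ R.children v, a c = if c ∈ D then -1 else 0 := by
              intro c hc
              have := st_ch v c hc
              have hl' := hnl c hc
              rw [h] at this
              simp only [a, pot]
              by_cases h3 : sp c <;> simp [h3] at this <;> simp [hl', h3, this]
            have hall' : ∀ c ∈ R.children v, a c ≤ 0 := by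
              intro c hc
              rw [hall c hc]; split_ifs <;> simp
            have h0 := sum0 hall'
            have hav : a v = if v ∈ D then 0 else if y v then 0 else 1 := by
              simp only [a, pot, hl, hs, if_false, h]; simp
            have hbv : b v = 1 - (if v ∈ D then 1 else 0) := by simp only [b, h, if_true]
            rw [hav, hbv]
            by_cases hD : v ∈ D
            · simp only [hD, if_true]; linarith
            · by_cases hy : y v
              · obtain ⟨c0, hc0, hcD⟩ := id hy
                have h4 : a c0 ≤ -1 := by rw [hall c0 hc0, if_pos hcD]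
                have := sum1 c0 (-1) hc0 h4 (fun c hc _ => hall' c hc)
                simp only [hD, hy, if_true, if_false]; linarith
              · simp only [hD, hy, if_false]; linarith
          · have hp := hpick1 v hl
            have hoth : ∀ c ∈ R.children v, c ≠ pick v → a c ≤ 0 := by
              intro c hc hne
              have := st_ch v c hc
              have hl' := hnl c hc
              rw [h] at this
              simp [hl', hne] at this
              simp only [a, this]
              exact pot1_le _ _ _ _
            have hps : st (pick v) = 0 := by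
              have := st_ch v _ hp
              rw [h] at this
              simpa [hs] using this
            have hpl := hnl _ hp
            have hap : a (pick v) ≤ (if v ∈ D then 1 else 0) := by
              simp only [a, hps]
              by_cases hD : v ∈ D
              · simp only [hD, if_true]
                exact pot0_le_one _ _ _ _
              · simp only [hD, if_false]
                by_cases hy : y v
                · exact pot0_le _ _ _ _ (Or.inr (Or.inr (Or.inl (hpick2 v hy))))
                · have hpD : pick v ∉ D := fun h' => hy ⟨_, hp, h'⟩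
                  have hyp : y (pick v) := by
                    obtain ⟨u, hu, huv⟩ := hdom _ hpD
                    rcases (R.adj_iff _ _).mp huv with ⟨h5, h6⟩ | ⟨h5, h6⟩
                    · exact ⟨u, (R.mem_children).mpr ⟨h5, h6⟩, hu⟩
                    · rw [((R.mem_children).mp hp).2] at h6
                      exact absurd (h6 ▸ hu) hD
                  exact pot0_le _ _ _ _ (Or.inr (Or.inr (Or.inr hyp)))
            have := sum1 _ _ hp hap hoth
            have hav : a v = 0 := by
              simp only [a, pot, hl, hs, if_false, h]; simp
            have hbv : b v = 0 - (if v ∈ D then 1 else 0) := by simp [b, h]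
            rw [hav, hbv]
            linarith
          · have hall : ∀ c ∈ R.children v, a c ≤ 0 := by
              intro c hc
              have := st_ch v c hc
              have hl' := hnl c hc
              rw [h] at this
              simp at this
              simp only [a, this]
              exact pot1_le _ _ _ _
            have h0 := sum0 hall
            have hav : a v = if v ∈ D then -1 else 0 := by
              simp only [a, pot, hl, hs, if_false, h]; simp
            have hbv : b v = 0 - (if v ∈ D then 1 else 0) := by simp [b, h]
            rw [hav, hbv]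
            split_ifs <;> linarith
    have ha : a R.root ≤ 0 := by
      have hnl : ¬ lf R.root := (Finset.nonempty_iff_ne_empty.mp hroot)
      simp only [a, pot, hnl, if_false, st_root]
      split_ifs <;> simp_all
    have hb : ∑ v, b v = ((Finset.univ.filter (fun v => st v = 0)).card : ℤ) - (D.card : ℤ) := by
      simp only [b, Finset.sum_sub_distrib]
      congr 1
      · simp
      · simp
    have : ((Finset.univ.filter (fun v => st v = 0)).card : ℤ) ≤ (D.card : ℤ) := by linarith
    exact_mod_cast this

theorem two_le_degree {V : Type} [Fintype V] (G : SimpleGraph V) [DecidableRel G.Adj]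
    {u a b : V} (hab : a ≠ b) (ha : G.Adj u a) (hb : G.Adj u b) : 2 ≤ G.degree u := by
  classical
  rw [← G.card_neighborFinset_eq_degree]
  have h : ({a, b} : Finset V) ⊆ G.neighborFinset u := by
    intro x hx
    rw [Finset.mem_insert, Finset.mem_singleton] at hx
    rcases hx with rfl | rfl <;> simpa
  calc 2 = ({a, b} : Finset V).card := (Finset.card_pair hab).symm
    _ ≤ _ := Finset.card_le_card h

theorem par_two_le_degree {V : Type} [Fintype V] {G : SimpleGraph V} [DecidableRel G.Adj]
    (R : Rooting G) {v : V} (hv : v ≠ R.root) (hu : R.par v ≠ R.root) :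
    2 ≤ G.degree (R.par v) := by
  refine two_le_degree G (a := v) (b := R.par (R.par v)) ?_ ?_ ?_
  · intro h
    have h1 := R.par_dep v hv
    have h2 := R.par_dep _ hu
    rw [← h] at h2
    omega
  · rw [R.adj_iff]; right; exact ⟨hv, rfl⟩
  · rw [R.adj_iff]; left; exact ⟨hu, rfl⟩

theorem exists_small {V : Type} [Fintype V] (G : SimpleGraph V) [DecidableRel G.Adj]
    (hG : G.IsTree) (D : Finset V) (hD : IsWeakDominating G D) :
    ∃ I : Finset V, IsDominating G I ∧ IsIndependent G I ∧ I.card ≤ D.card := by
  classical
  by_cases hdeg : ∃ r, 2 ≤ G.degree r
  · obtain ⟨r, hr⟩ := hdeg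
    obtain ⟨R, hRr⟩ := exists_rooting hG r
    subst hRr
    have hch : (R.children R.root).Nonempty := by
      have : 0 < G.degree R.root := by omega
      rw [G.degree_pos_iff_exists_adj] at this
      obtain ⟨w, hw⟩ := this
      rcases (R.adj_iff _ _).mp hw with ⟨h, _⟩ | h
      · exact absurd rfl h
      · exact ⟨w, (R.mem_children).mpr h⟩
    refine main R D (fun v hv => ?_) hch (fun v hv => ?_)
    · obtain ⟨u, hu, h, _⟩ := hD v hv
      exact ⟨u, hu, h⟩
    · by_contra hvD
      obtain ⟨u, hu, huv, hdu⟩ := hD v hvD
      have hvr : v ≠ R.root := by
        rintro rfl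
        rw [hv] at hch; simp at hch
      have hpar : ∀ w, G.Adj v w → w = R.par v := by
        intro w hw
        rcases (R.adj_iff _ _).mp hw with ⟨_, h⟩ | h
        · exact h.symm
        · have := (R.mem_children).mpr h
          rw [hv] at this; simp at this
      have hdv : G.degree v ≤ 1 := by
        rw [← G.card_neighborFinset_eq_degree, Finset.card_le_one]
        intro a ha b hb
        rw [G.mem_neighborFinset] at ha hb
        rw [hpar a ha, hpar b hb]
      have hup := hpar u huv.symm
      have h2 : 2 ≤ G.degree u := by
        by_cases hur : u = R.root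
        · rw [hur]; exact hr
        · rw [hup] at hur ⊢
          exact par_two_le_degree R hvr hur
      omega
  · push Not at hdeg
    have hne : Nonempty V := hG.connected.nonempty
    obtain ⟨x⟩ := hne
    obtain ⟨R, hRr⟩ := exists_rooting hG x
    subst hRr
    refine ⟨{R.root}, ?_, ?_, ?_⟩
    · intro v hv
      rw [Finset.mem_singleton] at hv
      have hp : R.par v = R.root := by
        by_contra hp
        have := par_two_le_degree R hv hp
        have := hdeg (R.par v)
        omega
      refine ⟨R.root, by simp, ?_⟩
      rw [R.adj_iff]; right; exact ⟨hv, hp⟩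
    · intro u hu v hv
      rw [Finset.mem_singleton] at hu hv
      rw [hu, hv]; exact G.loopless.irrefl _
    · rw [Finset.card_singleton, Nat.succ_le_iff, Finset.card_pos]
      by_contra hne
      rw [Finset.not_nonempty_iff_eq_empty] at hne
      obtain ⟨u, hu, _⟩ := hD R.root (by rw [hne]; simp)
      rw [hne] at hu; simp at hu

/-- For every tree, `i(T) ≤ γ_W(T)`. -/
theorem result {V : Type} [Fintype V] (G : SimpleGraph V) [DecidableRel G.Adj]
    (hG : G.IsTree) : indDomNumber G ≤ weakDomNumber G := by
  have hne : {k | ∃ D : Finset V, IsWeakDominating G D ∧ D.card = k}.Nonempty :=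
    ⟨_, Finset.univ, fun v hv => absurd (Finset.mem_univ v) hv, rfl⟩
  obtain ⟨D, hD, hk⟩ := Nat.sInf_mem hne
  obtain ⟨I, h1, h2, h3⟩ := exists_small G hG D hD
  have h4 : indDomNumber G ≤ I.card := Nat.sInf_le ⟨I, h1, h2, rfl⟩
  unfold weakDomNumber
  rw [← hk]
  exact h4.trans h3

end Pool.Agent.Results.MP_2d208d_co.TreesIndLeWeak
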